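import Mathlib
import Pool.Agent.H686R3.CoarseDefs
import Pool.Agent.H686R3.PeriodicGroup

/-!
# Cocycle growth faster than the square root of the distance does not imply amenability

Let `PG` be the group of all functions `ℕ → Sym(ℕ)` which are periodic with some period `2^n`, with
the bi-invariant metric `ρ(f,g) = density {x | f x ≠ g x}`.

* `PG` is coarsely bounded: every element is a product of `2^n` elements supported on a residue
  class mod `2^n`.  Hence `G = PG × ℤ` has the maximal metric `max(ρ, |k - l|)`, and the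
  homomorphism `G → ℤ ⊆ ℝ` is a cocycle of linear growth.
* `PG` acts continuously on the compact space of finitely additive probability measures on
  `ℕ × ℕ` with first marginal a fixed density.  An invariant Borel probability measure on it
  would have a barycentre whose second marginal is a `Sym(ℕ)`-invariant finitely additive
  probability measure on `ℕ`, which does not exist.
-/

namespace Pool.Agent.Results.MP_5f76cf_al.NonAmenable

open Filter Topology MeasureTheory Pool.Agent.H686R3.Coarse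

/-! ### The compact space -/

/-- finitely additive probability measures on `ℕ × ℕ` with first marginal `m` -/
def PS : Type := {ν : Set (ℕ × ℕ) → ℝ // IsFAP ν ∧ ∀ A : Set ℕ, ν (Prod.fst ⁻¹' A) = m A}

instance : TopologicalSpace PS := instTopologicalSpaceSubtype

instance : T2Space PS := inferInstanceAs (T2Space {ν : Set (ℕ × ℕ) → ℝ //
  IsFAP ν ∧ ∀ A : Set ℕ, ν (Prod.fst ⁻¹' A) = m A})

instance : CompactSpace PS := by
  have h : IsCompact {ν : Set (ℕ × ℕ) → ℝ | IsFAP ν ∧ ∀ A : Set ℕ, ν (Prod.fst ⁻¹' A) = m A} := by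
    refine IsCompact.of_isClosed_subset
      (isCompact_univ_pi fun _ : Set (ℕ × ℕ) => (isCompact_Icc : IsCompact (Set.Icc (0 : ℝ) 1))) ?_
      ?_
    · have e : {ν : Set (ℕ × ℕ) → ℝ | IsFAP ν ∧ ∀ A : Set ℕ, ν (Prod.fst ⁻¹' A) = m A} =
          (⋂ A, {ν | 0 ≤ ν A}) ∩ (⋂ A, ⋂ B, ⋂ (_ : Disjoint A B), {ν | ν (A ∪ B) = ν A + ν B}) ∩
          {ν | ν Set.univ = 1} ∩ (⋂ A : Set ℕ, {ν | ν (Prod.fst ⁻¹' A) = m A}) := by
        ext ν
        simp only [Set.mem_inter_iff, Set.mem_iInter]
        constructor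
        · rintro ⟨⟨h1, h2, h3⟩, h4⟩
          exact ⟨⟨⟨h1, h2⟩, h3⟩, h4⟩
        · rintro ⟨⟨⟨h1, h2⟩, h3⟩, h4⟩
          exact ⟨⟨h1, h2, h3⟩, h4⟩
      rw [e]
      refine IsClosed.inter (IsClosed.inter (IsClosed.inter ?_ ?_) ?_) ?_
      · exact isClosed_iInter fun A => isClosed_le continuous_const (continuous_apply A)
      · exact isClosed_iInter fun A => isClosed_iInter fun B => isClosed_iInter fun _ =>
          isClosed_eq (continuous_apply _) ((continuous_apply A).add (continuous_apply B))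
      · exact isClosed_eq (continuous_apply _) continuous_const
      · exact isClosed_iInter fun A => isClosed_eq (continuous_apply _) continuous_const
    · rintro ν ⟨h, _⟩ A _
      exact ⟨h.nonneg A, h.le_one A⟩
  exact isCompact_iff_compactSpace.mp h

instance : Nonempty PS := by
  refine ⟨⟨fun C => m {x | (x, 0) ∈ C}, ⟨?_, ?_, ?_⟩, ?_⟩⟩
  · intro A
    exact m_fap.nonneg _
  · intro A B hAB
    rw [← m_fap.add]
    · rfl
    · rw [Set.disjoint_left] at hAB ⊢
      intro x hA hB
      exact hAB hA hB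
  · exact m_fap.univ
  · intro A
    rfl

theorem continuous_eval (C : Set (ℕ × ℕ)) : Continuous fun ν : PS => ν.1 C :=
  (continuous_apply C).comp continuous_subtype_val

/-- the action of `f` on `ℕ × ℕ` -/
def act (f : PG) (p : ℕ × ℕ) : ℕ × ℕ := (p.1, f.1 p.1 p.2)

noncomputable instance : MulAction PG PS where
  smul f ν := ⟨fun C => ν.1 (act f ⁻¹' C), ⟨fun A => ν.2.1.nonneg _, fun A B hAB => by
    rw [Set.preimage_union]
    exact ν.2.1.add _ _ (hAB.preimage _), by rw [Set.preimage_univ]; exact ν.2.1.univ⟩,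
    fun A => ν.2.2 A⟩
  one_smul ν := rfl
  mul_smul f g ν := rfl

theorem smul_val (f : PG) (ν : PS) (C : Set (ℕ × ℕ)) : (f • ν).1 C = ν.1 (act f ⁻¹' C) := rfl

theorem eval_le (f g : PG) (ν : PS) (C : Set (ℕ × ℕ)) :
    ν.1 (act f ⁻¹' C) - ν.1 (act g ⁻¹' C) ≤ dist f g := by
  rw [dist_def]
  unfold rho
  rw [← ν.2.2]
  apply ν.2.1.sub_le
  rintro ⟨x, y⟩ ⟨h1, h2⟩
  change f.1 x ≠ g.1 x
  intro h
  apply h2
  change (x, g.1 x y) ∈ C
  rw [← h]
  exact h1

instance : ContinuousSMul PG PS where
  continuous_smul := by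
    refine Continuous.subtype_mk (continuous_pi fun C => ?_) _
    rw [continuous_iff_continuousAt]
    rintro ⟨f₀, ν₀⟩
    rw [ContinuousAt, tendsto_iff_dist_tendsto_zero]
    refine squeeze_zero (g := fun p : PG × PS => dist p.1 f₀ +
      dist (p.2.1 (act f₀ ⁻¹' C)) (ν₀.1 (act f₀ ⁻¹' C))) (fun _ => dist_nonneg) ?_ ?_
    · rintro ⟨f, ν⟩
      refine (dist_triangle _ (ν.1 (act f₀ ⁻¹' C)) _).trans ?_
      gcongr
      rw [Real.dist_eq, abs_le]
      have h1 := eval_le f f₀ ν C
      have h2 := eval_le f₀ f ν C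
      rw [dist_comm f₀ f] at h2
      constructor
      · simp only
        linarith
      · exact h1
    · have h1 : Tendsto (fun p : PG × PS => dist p.1 f₀) (𝓝 (f₀, ν₀)) (𝓝 (dist f₀ f₀)) :=
        ((continuous_fst.dist continuous_const).tendsto _)
      have h2 : Tendsto (fun p : PG × PS => dist (p.2.1 (act f₀ ⁻¹' C)) (ν₀.1 (act f₀ ⁻¹' C)))
          (𝓝 (f₀, ν₀)) (𝓝 (dist (ν₀.1 (act f₀ ⁻¹' C)) (ν₀.1 (act f₀ ⁻¹' C)))) :=
        ((((continuous_eval _).comp continuous_snd).dist continuous_const).tendsto _)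
      simpa using h1.add h2

/-! ### No invariant mean on `ℕ` -/

theorem exists_perm (A B : Set ℕ) (hA : A.Infinite) (hA' : Aᶜ.Infinite) (hB : B.Infinite)
    (hB' : Bᶜ.Infinite) : ∃ s : Equiv.Perm ℕ, s ⁻¹' A = B := by
  classical
  have := hA.to_subtype
  have := hA'.to_subtype
  have := hB.to_subtype
  have := hB'.to_subtype
  obtain ⟨e1⟩ : Nonempty (B ≃ A) := nonempty_equiv_of_countable
  obtain ⟨e2⟩ : Nonempty ((Bᶜ : Set ℕ) ≃ (Aᶜ : Set ℕ)) := nonempty_equiv_of_countable
  refine ⟨(Equiv.Set.sumCompl B).symm.trans ((Equiv.sumCongr e1 e2).trans (Equiv.Set.sumCompl A)),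
    ?_⟩
  ext x
  simp only [Set.mem_preimage, Equiv.trans_apply]
  by_cases hx : x ∈ B
  · rw [Equiv.Set.sumCompl_symm_apply_of_mem hx]
    simp [hx]
  · rw [Equiv.Set.sumCompl_symm_apply_of_notMem hx]
    have := (e2 ⟨x, hx⟩).2
    simp only [Equiv.sumCongr_apply, Sum.map_inr, Equiv.Set.sumCompl_apply_inr, hx, iff_false]
    exact this

theorem no_invariant_mean (l : Set ℕ → ℝ) (hl : IsFAP l)
    (hinv : ∀ (s : Equiv.Perm ℕ) (A : Set ℕ), l (s ⁻¹' A) = l A) : False := by
  have hinf : ∀ r, r < 3 → {x : ℕ | x % 3 = r}.Infinite := by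
    intro r hr
    refine Set.infinite_of_injective_forall_mem (f := fun k => 3 * k + r) ?_ ?_
    · intro a b hab
      simp only at hab
      omega
    · intro k
      change (3 * k + r) % 3 = r
      omega
  have heq : ∀ A B : Set ℕ, A.Infinite → Aᶜ.Infinite → B.Infinite → Bᶜ.Infinite → l A = l B := by
    intro A B h1 h2 h3 h4
    obtain ⟨s, hs⟩ := exists_perm A B h1 h2 h3 h4
    rw [← hs, hinv]
  set C0 : Set ℕ := {x : ℕ | x % 3 = 0} with hC0
  set C1 : Set ℕ := {x : ℕ | x % 3 = 1} with hC1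
  set C2 : Set ℕ := {x : ℕ | x % 3 = 2} with hC2
  have i0 : C0.Infinite := hinf 0 (by norm_num)
  have i1 : C1.Infinite := hinf 1 (by norm_num)
  have i2 : C2.Infinite := hinf 2 (by norm_num)
  have c0 : C0ᶜ.Infinite := i1.mono fun x (hx : x % 3 = 1) => by
    change ¬ x % 3 = 0; omega
  have c1 : C1ᶜ.Infinite := i0.mono fun x (hx : x % 3 = 0) => by
    change ¬ x % 3 = 1; omega
  have c2 : C2ᶜ.Infinite := i0.mono fun x (hx : x % 3 = 0) => by
    change ¬ x % 3 = 2; omega
  have i01 : (C0 ∪ C1).Infinite := i0.mono Set.subset_union_left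
  have c01 : (C0 ∪ C1)ᶜ.Infinite := i2.mono fun x (hx : x % 3 = 2) => by
    rintro (h | h)
    · have : x % 3 = 0 := h
      omega
    · have : x % 3 = 1 := h
      omega
  have d01 : Disjoint C0 C1 := by
    rw [Set.disjoint_left]
    intro x (h0 : x % 3 = 0) (h1 : x % 3 = 1)
    omega
  have d012 : Disjoint (C0 ∪ C1) C2 := by
    rw [Set.disjoint_left]
    rintro x (h | h) (h2 : x % 3 = 2)
    · have : x % 3 = 0 := h
      omega
    · have : x % 3 = 1 := h
      omega
  have hun : (C0 ∪ C1) ∪ C2 = Set.univ := by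
    ext x
    simp only [Set.mem_univ, iff_true]
    have : x % 3 < 3 := Nat.mod_lt _ (by norm_num)
    have h3 : x % 3 = 0 ∨ x % 3 = 1 ∨ x % 3 = 2 := by omega
    rcases h3 with h | h | h
    · exact Or.inl (Or.inl h)
    · exact Or.inl (Or.inr h)
    · exact Or.inr h
  have e1 := heq _ _ i01 c01 i0 c0
  have e2 := heq _ _ i1 c1 i0 c0
  have e3 := heq _ _ i2 c2 i0 c0
  have a1 := hl.add _ _ d01
  have a2 := hl.add _ _ d012
  rw [hun, hl.univ] at a2
  linarith

/-! ### The group `G = PG × ℤ` -/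

/-- the group -/
abbrev G : Type := PG × Multiplicative ℤ

noncomputable instance : MulAction G PS := MulAction.compHom PS (MonoidHom.fst PG (Multiplicative ℤ))

theorem G_smul (g : G) (ν : PS) : g • ν = g.1 • ν := rfl

instance : ContinuousSMul G PS where
  continuous_smul := by
    have h : Continuous fun p : PG × PS => p.1 • p.2 := continuous_smul
    exact h.comp ((continuous_fst.comp continuous_fst).prodMk continuous_snd)

theorem not_amenable : ¬ IsAmenable G := by
  intro h
  let _ : MeasurableSpace PS := borel PS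
  have _ : BorelSpace PS := ⟨rfl⟩
  obtain ⟨μ, hμ, hinv⟩ := h PS
  have hmeas : ∀ C : Set (ℕ × ℕ), Measurable fun ν : PS => ν.1 C := fun C =>
    (continuous_eval C).measurable
  have hint : ∀ C : Set (ℕ × ℕ), Integrable (fun ν : PS => ν.1 C) μ := by
    intro C
    refine Integrable.of_bound (hmeas C).aestronglyMeasurable 1 ?_
    refine Filter.Eventually.of_forall fun ν => ?_
    rw [Real.norm_eq_abs, abs_of_nonneg (ν.2.1.nonneg C)]
    exact ν.2.1.le_one C
  refine no_invariant_mean (fun A => ∫ ν : PS, ν.1 (Prod.snd ⁻¹' A) ∂μ) ⟨?_, ?_, ?_⟩ ?_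
  · intro A
    exact integral_nonneg fun ν => ν.2.1.nonneg _
  · intro A B hAB
    rw [← integral_add (hint _) (hint _)]
    congr 1
    funext ν
    rw [Set.preimage_union]
    exact ν.2.1.add _ _ (hAB.preimage _)
  · have : ∀ ν : PS, ν.1 (Prod.snd ⁻¹' (Set.univ : Set ℕ)) = 1 := fun ν => by
      rw [Set.preimage_univ]; exact ν.2.1.univ
    simp only [this]
    simp
  · intro s A
    have h1 := hinv ((const s, 1) : G)
    have h2 : Measurable fun ν : PS => ((const s, 1) : G) • ν := by
      have : Continuous fun ν : PS => ((const s, 1) : G) • ν := continuous_const_smul _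
      exact this.measurable
    calc ∫ ν : PS, ν.1 (Prod.snd ⁻¹' (s ⁻¹' A)) ∂μ
        = ∫ ν : PS, (((const s, 1) : G) • ν).1 (Prod.snd ⁻¹' A) ∂μ := rfl
      _ = ∫ ν : PS, ν.1 (Prod.snd ⁻¹' A) ∂(μ.map fun ν => ((const s, 1) : G) • ν) := by
          rw [integral_map h2.aemeasurable (hmeas _).aestronglyMeasurable]
      _ = ∫ ν : PS, ν.1 (Prod.snd ⁻¹' A) ∂μ := by rw [h1]

/-- the maximal metric -/
noncomputable def dG (g h : G) : ℝ := dist g h

theorem dG_eq (g h : G) :
    dG g h = max (dist g.1 h.1) |((Multiplicative.toAdd g.2 : ℤ) : ℝ) - (Multiplicative.toAdd h.2 : ℤ)| := by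
  unfold dG
  rw [Prod.dist_eq]
  rfl

theorem dG_left (h g f : G) : dG (h * g) (h * f) = dG g f := by
  rw [dG_eq, dG_eq]
  simp only [Prod.fst_mul, Prod.snd_mul, dist_mul_left, toAdd_mul]
  congr 2
  push_cast
  ring

theorem dG_compatible : IsCompatibleLeftInvariantMetric dG where
  eq_zero_iff x y := dist_eq_zero
  symm x y := dist_comm x y
  triangle x y z := dist_triangle x y z
  left_invariant := dG_left
  isOpen_iff s := by
    rw [Metric.isOpen_iff]
    constructor
    · intro h x hx
      obtain ⟨ε, hε, hs⟩ := h x hx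
      refine ⟨ε, hε, fun y hy => hs ?_⟩
      rw [Metric.mem_ball, dist_comm]
      exact hy
    · intro h x hx
      obtain ⟨ε, hε, hs⟩ := h x hx
      refine ⟨ε, hε, fun y hy => hs y ?_⟩
      rw [Metric.mem_ball, dist_comm] at hy
      exact hy

theorem dG_maximal : IsMaximalMetric dG := by
  refine ⟨dG_compatible, fun p hp => ?_⟩
  have hp0 : ∀ x y, 0 ≤ p x y := by
    intro x y
    have h1 := hp.triangle x y x
    rw [(hp.eq_zero_iff x x).mpr rfl, hp.symm y x] at h1
    linarith
  have hp1 : ∀ x y, p x y = p 1 (x⁻¹ * y) := by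
    intro x y
    have := hp.left_invariant x 1 (x⁻¹ * y)
    rw [mul_one, mul_inv_cancel_left] at this
    exact this
  have hmul : ∀ x y, p 1 (x * y) ≤ p 1 x + p 1 y := by
    intro x y
    have h1 := hp.triangle 1 x (x * y)
    have h2 := hp1 x (x * y)
    rw [inv_mul_cancel_left] at h2
    rw [h2] at h1
    exact h1
  have hinv : ∀ x, p 1 x⁻¹ = p 1 x := by
    intro x
    have := hp1 x 1
    rw [mul_one] at this
    rw [← this, hp.symm]
  have hone : p 1 1 = 0 := (hp.eq_zero_iff 1 1).mpr rfl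
  -- a small ball
  obtain ⟨ε, hε, hball⟩ : ∃ ε > 0, ∀ y, dG 1 y < ε → p 1 y < 1 := by
    have hopen : IsOpen {y : G | p 1 y < 1} := by
      rw [hp.isOpen_iff]
      intro x hx
      refine ⟨1 - p 1 x, sub_pos.mpr hx, fun y hy => ?_⟩
      have := hp.triangle 1 x y
      change p 1 y < 1
      linarith
    have := (dG_compatible.isOpen_iff _).mp hopen 1 (by
      change p 1 1 < 1
      rw [hone]; norm_num)
    exact this
  obtain ⟨n, hn⟩ : ∃ n : ℕ, (1 : ℝ) / 2 ^ n < ε := by
    obtain ⟨n, hn⟩ := exists_pow_lt_of_lt_one hε (by norm_num : (1 / 2 : ℝ) < 1)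
    refine ⟨n, ?_⟩
    rwa [one_div_pow] at hn
  have hbdd : ∀ (f : PG) (j : ℕ), j ≤ 2 ^ n → p 1 ((trunc f n j, 1) : G) ≤ j := by
    intro f j
    induction j with
    | zero =>
      intro _
      rw [trunc_zero]
      rw [show ((1, 1) : G) = 1 from rfl, hone]
      simp
    | succ j ih =>
      intro hj
      have h1 := ih (by omega)
      have h2 : ((trunc f n (j + 1), 1) : G) =
          ((trunc f n j, 1) : G) * (((trunc f n j)⁻¹ * trunc f n (j + 1), 1) : G) := by
        ext1
        · simp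
        · simp
      have h3 : p 1 (((trunc f n j)⁻¹ * trunc f n (j + 1), 1) : G) < 1 := by
        apply hball
        rw [dG_eq]
        have h4 : dist (1 : PG) ((trunc f n j)⁻¹ * trunc f n (j + 1)) ≤ 1 / 2 ^ n := by
          rw [← dist_mul_left (trunc f n j), mul_one, mul_inv_cancel_left]
          exact dist_trunc f n j (by omega)
        simp only [Prod.fst_one, Prod.snd_one, toAdd_one, Int.cast_zero, sub_zero, abs_zero]
        exact max_lt (h4.trans_lt hn) hε
      rw [h2]
      have h5 := hmul ((trunc f n j, 1) : G) (((trunc f n j)⁻¹ * trunc f n (j + 1), 1) : G)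
      push_cast
      linarith
  have hbdd' : ∀ f : PG, p 1 ((f, 1) : G) ≤ 2 ^ n := by
    intro f
    have := hbdd f (2 ^ n) le_rfl
    rw [trunc_full] at this
    exact_mod_cast this
  set c : ℝ := p 1 ((1, Multiplicative.ofAdd 1) : G) with hc
  have hc0 : 0 ≤ c := hp0 _ _
  have hpow : ∀ k : ℕ, p 1 ((1, Multiplicative.ofAdd (k : ℤ)) : G) ≤ k * c := by
    intro k
    induction k with
    | zero =>
      rw [show ((1, Multiplicative.ofAdd ((0 : ℕ) : ℤ)) : G) = 1 from rfl, hone]
      simp
    | succ k ih =>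
      have h2 : ((1, Multiplicative.ofAdd ((k + 1 : ℕ) : ℤ)) : G) =
          ((1, Multiplicative.ofAdd (k : ℤ)) : G) * ((1, Multiplicative.ofAdd 1) : G) := by
        ext1
        · simp
        · simp [ofAdd_add]
      rw [h2]
      have h5 := hmul ((1, Multiplicative.ofAdd (k : ℤ)) : G) ((1, Multiplicative.ofAdd 1) : G)
      push_cast
      linarith
  have hzpow : ∀ k : ℤ, p 1 ((1, Multiplicative.ofAdd k) : G) ≤ |(k : ℝ)| * c := by
    intro k
    obtain ⟨j, rfl | rfl⟩ := k.eq_nat_or_neg
    · have := hpow j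
      simpa using this
    · have h1 : ((1, Multiplicative.ofAdd (-(j : ℤ))) : G) =
          ((1, Multiplicative.ofAdd (j : ℤ)) : G)⁻¹ := by
        ext1
        · simp
        · simp
      rw [h1, hinv]
      have := hpow j
      simpa using this
  refine ⟨max (2 ^ n) c, fun x y => ?_⟩
  rw [hp1]
  have hd : dG x y = dG 1 (x⁻¹ * y) := by
    have := dG_left x 1 (x⁻¹ * y)
    rw [mul_one, mul_inv_cancel_left] at this
    exact this
  rw [hd]
  set u : G := x⁻¹ * y with hu
  have h1 : u = ((u.1, 1) : G) * ((1, Multiplicative.ofAdd (Multiplicative.toAdd u.2)) : G) := by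
    ext1
    · simp
    · simp
  have h2 : |((Multiplicative.toAdd u.2 : ℤ) : ℝ)| ≤ dG 1 u := by
    rw [dG_eq]
    refine le_trans ?_ (le_max_right _ _)
    simp
  have h3 := hmul ((u.1, 1) : G) ((1, Multiplicative.ofAdd (Multiplicative.toAdd u.2)) : G)
  rw [← h1] at h3
  have h4 := hbdd' u.1
  have h5 := hzpow (Multiplicative.toAdd u.2)
  have h6 : |((Multiplicative.toAdd u.2 : ℤ) : ℝ)| * c ≤ max (2 ^ n) c * dG 1 u := by
    rw [mul_comm]
    exact mul_le_mul (le_max_right _ _) h2 (abs_nonneg _) (le_trans hc0 (le_max_right _ _))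
  have h7 : (2 : ℝ) ^ n ≤ max (2 ^ n) c := le_max_left _ _
  linarith

/-- the action of `G` on the real line by translations through the projection `G → ℤ` -/
noncomputable def action : AffineIsometricAction G ℝ where
  π := 1
  b g := ((Multiplicative.toAdd g.2 : ℤ) : ℝ)
  cocycle g h := by
    simp [add_comm]
  continuous_action := by
    have h : Continuous fun z : Multiplicative ℤ => ((Multiplicative.toAdd z : ℤ) : ℝ) :=
      continuous_of_discreteTopology
    have h2 : Continuous fun p : G × ℝ => p.2 + ((Multiplicative.toAdd p.1.2 : ℤ) : ℝ) :=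
      continuous_snd.add (h.comp (continuous_snd.comp continuous_fst))
    exact h2

/-- **Q1 is false.**  There is a non-amenable metrisable topological group `G` with an (unbounded)
maximal compatible left-invariant metric `d` and a continuous affine isometric action on a real
Hilbert space whose cocycle `b` grows linearly: `‖b(g)‖ ≥ d(g,1)^a / C - C` with `a = 1`. -/
theorem result :
    ∃ (G : Type) (_ : Group G) (_ : TopologicalSpace G) (_ : IsTopologicalGroup G)
      (_ : TopologicalSpace.MetrizableSpace G) (d : G → G → ℝ) (H : Type)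
      (_ : NormedAddCommGroup H) (_ : InnerProductSpace ℝ H) (_ : CompleteSpace H)
      (α : AffineIsometricAction G H) (a C : ℝ),
      ¬ IsAmenable G ∧ IsMaximalMetric d ∧ (∀ R : ℝ, ∃ g : G, R < d g 1) ∧
      a = 1 ∧ 0 < C ∧ ∀ g : G, d g 1 ^ a / C - C ≤ ‖α.b g‖ := by
  refine ⟨G, inferInstance, inferInstance, inferInstance, inferInstance, dG, ℝ, inferInstance,
    inferInstance, inferInstance, action, 1, 1, not_amenable, dG_maximal, ?_, rfl, one_pos, ?_⟩
  · intro R
    obtain ⟨k, hk⟩ := exists_nat_gt R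
    refine ⟨((1, Multiplicative.ofAdd (k : ℤ)) : G), ?_⟩
    rw [dG_eq]
    refine hk.trans_le (le_trans ?_ (le_max_right _ _))
    simp
  · intro g
    rw [Real.rpow_one, div_one, dG_eq]
    have h1 : dist g.1 (1 : G).1 ≤ 1 := dist_le_one _ _
    have h2 : ‖action.b g‖ = |((Multiplicative.toAdd g.2 : ℤ) : ℝ)| := rfl
    rw [h2]
    have h3 := abs_nonneg ((Multiplicative.toAdd g.2 : ℤ) : ℝ)
    have h4 : |((Multiplicative.toAdd g.2 : ℤ) : ℝ) - (Multiplicative.toAdd (1 : G).2 : ℤ)| =
        |((Multiplicative.toAdd g.2 : ℤ) : ℝ)| := by simp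
    rw [h4, sub_le_iff_le_add]
    exact max_le (by linarith) (by linarith)

end Pool.Agent.Results.MP_5f76cf_al.NonAmenable
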